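import Mathlib

/-!
# Ratios of successive critical values: the definitions
-/

set_option autoImplicit false

namespace Pool.Agent.K9h86.RT

open NumberField Polynomial Filter Topology IsDedekindDomain

/-- The data of a pure motive `M₀` of rank `n` over the number field `F` with coefficients in `E`,
such that the restriction of scalars `M` of `M₀` to `ℚ` has no middle Hodge type, which enter the
question on the ratios of the critical values. -/
structure MotiveOver (F : Type) [Field F] [NumberField F] (E : Type) [Field E] where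
  /-- the weight -/
  w : ℤ
  /-- the rank of `M₀` -/
  n : ℕ
  /-- the numbers `p` for the Hodge types `(p, w - p)` of `M` with `p < w - p`, every one as often
  as its Hodge number -/
  hodge : Multiset ℤ
  hodge_card : 2 * Multiset.card hodge = n * Module.finrank ℚ F
  hodge_lt : ∀ p ∈ hodge, 2 * p < w
  /-- If the rank is odd then `F` contains a CM field (`y` is a totally imaginary element). All
  motives without middle Hodge type have this property: if `n` is odd and `ι` is an embedding of
  `E` then the number of the Hodge types `(p, q)` of `σM₀` with `p < q` is not `n / 2` for any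
  `σ : F → ℂ`, and conjugating `σ` with any complex conjugation of the algebraic numbers changes it
  from `n / 2 + a` to `n / 2 - a`; so any two complex conjugations act in the same way on a
  subfield of `F` which is not totally real. -/
  odd_cm : Odd n → ∃ y : F, y ≠ 0 ∧ ∀ φ : F →+* ℂ, star (φ y) = -φ y
  /-- a finite set of primes of `F`, with all primes of bad reduction -/
  bad : Finset (Ideal (𝓞 F))
  /-- the characteristic polynomial of the geometric Frobenius at the prime `p` of `F` -/
  frob : Ideal (𝓞 F) → E[X]
  monic : ∀ p : Ideal (𝓞 F), p.IsPrime → p ≠ ⊥ → p ∉ bad →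
    (frob p).Monic ∧ (frob p).natDegree = n
  pure : ∀ p : Ideal (𝓞 F), p.IsPrime → p ≠ ⊥ → p ∉ bad → ∀ (ι : E →+* ℂ) (α : ℂ),
    ((frob p).map ι).IsRoot α → ‖α‖ = (Ideal.absNorm p : ℝ) ^ ((w : ℝ) / 2)

/-- Both `m` and its mirror image are not poles of the archimedean factors: `m` is critical for
`L(s, M)`, that is `p < m ≤ q` for every Hodge type `(p, q)` with `p < q`. -/
def IsCritical {F : Type} [Field F] [NumberField F] {E : Type} [Field E] (M : MotiveOver F E)
    (m : ℤ) : Prop := ∀ p ∈ M.hodge, p < m ∧ m ≤ M.w - p

/-- `D` is a totally negative element of the maximal totally real subfield `k₀` of `k`, with the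
square root `y` in `k`; then `k₀(y)` is the maximal CM subfield of `k`. -/
def IsCMElement (k : Type) [Field k] [NumberField k] (D : maximalRealSubfield k) (y : k) : Prop :=
  (∀ φ : k →+* ℂ, (φ (D : k)).re < 0) ∧ y ^ 2 = (D : k)

/-- `δ` is the number `Δ_k` of the totally imaginary field `k`, up to the sign. In the CM-case, when
the maximal CM subfield of `k` is `k₁ = k₀(√D)`, it is `√N(D) ^ [k : k₁]`, where `N` is the norm
from the maximal totally real subfield `k₀` of `k` to `ℚ` and `[k : k₁] = [k : k₀] / 2`; it is `1`
if `k` contains no CM field. -/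
def IsDelta (k : Type) [Field k] [NumberField k] (δ : ℂ) : Prop :=
  (∃ (D : maximalRealSubfield k) (y : k) (r : ℂ), IsCMElement k D y ∧
    r ^ 2 = (Algebra.norm ℚ D : ℂ) ∧ δ = r ^ (Module.finrank (maximalRealSubfield k) k / 2)) ∨
  ((∀ (D : maximalRealSubfield k) (y : k), ¬ IsCMElement k D y) ∧ δ = 1)

section defs

variable {F : Type} [Field F] [NumberField F] {E : Type} [Field E] (M : MotiveOver F E)
  (ι : E →+* ℂ) (k : Type) [Field k] [NumberField k] [Algebra F k]

/-- The Euler factor at the prime `v` of `k` and the embedding `ι` of `E` of the L-function of the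
base change `M_k` of `M₀` to the extension `k` of `F`: if the prime `p` of `F` below `v` is not in
the finite set `bad`, and `f` is the degree of `v` over `p`, it is the product of the
`(1 - α^f N(v)^(-s))⁻¹` over the eigenvalues `α` of the Frobenius at `p`. The Euler factors above
the primes in `bad` are left out. -/
noncomputable def eulerFactor (v : HeightOneSpectrum (𝓞 k)) (s : ℂ) : ℂ :=
  if v.asIdeal.under (𝓞 F) ∈ M.bad then 1
  else ((((M.frob (v.asIdeal.under (𝓞 F))).map ι).roots.map fun α =>
    1 - α ^ v.asIdeal.inertiaDeg (𝓞 F) * (Ideal.absNorm v.asIdeal : ℂ) ^ (-s)).prod)⁻¹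

/-- The archimedean factor of the completed L-function of `M_k`: the Hodge types of `M_k` (over
`ℚ`) are those of `M`, every one `[k : F]` times as often, and `Γ_ℂ(s) = 2 (2π)^(-s) Γ(s)`. -/
noncomputable def Linf (s : ℂ) : ℂ :=
  (M.hodge.map fun p : ℤ => Complex.Gammaℂ (s - p)).prod ^ Module.finrank F k

/-- `f` is the meromorphic continuation to `ℂ` of the (finite part of the) L-function of `M_k`,
which is the Euler product for `Re s > 1 + w / 2`. -/
def IsL (f : ℂ → ℂ) : Prop :=
  (∀ s : ℂ, MeromorphicAt f s) ∧ ∀ s : ℂ, 1 + (M.w : ℝ) / 2 < s.re →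
    HasProd (fun v => eulerFactor M ι k v s) (f s)

/-- **The equality of Q1 for the base change `M_k` and the integer `m`**: the L-functions continue
to `ℂ`, they have values `z` and `z'` at `m` and at `m + 1`, the value at `m + 1` is not zero, and
`L(m, M_k) / L(m + 1, M_k) = (1 ⊗ i^(d/2) Δ)^n` in `(E ⊗ ℂ) / Eˣ`, where `d` is the degree of `k`
and `L` is the completed L-function. -/
def RatioEquality (m : ℤ) : Prop :=
  ∃ e : E, e ≠ 0 ∧ ∃ δ : ℂ, IsDelta k δ ∧ ∀ ι : E →+* ℂ, ∃ (f : ℂ → ℂ) (z z' : ℂ),
    IsL M ι k f ∧ Tendsto f (𝓝[≠] (m : ℂ)) (𝓝 z) ∧ Tendsto f (𝓝[≠] ((m : ℂ) + 1)) (𝓝 z') ∧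
    z' ≠ 0 ∧ (Linf M k m * z) / (Linf M k ((m : ℂ) + 1) * z') =
      ι e * (Complex.I ^ (Module.finrank ℚ k / 2) * δ) ^ M.n

end defs

/-- Hyperelementary groups: for some prime number `p` there is a normal cyclic subgroup of an order
prime to `p` whose quotient is a `p`-group. -/
def Hyperelementary (U : Type) [Group U] : Prop :=
  ∃ p : ℕ, p.Prime ∧ ∃ c : U, (orderOf c).Coprime p ∧
    (∀ u : U, u * c * u⁻¹ ∈ Subgroup.zpowers c) ∧ ∀ u : U, ∃ k : ℕ, u ^ (p ^ k) ∈ Subgroup.zpowers c

end Pool.Agent.K9h86.RT
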