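import Mathlib
import Pool.Agent.K9h41.DC.Eu
import Pool.Agent.K9h86.RT.Df

/-!
# Artin L-series with weights which are pulled back from the base field, and the Euler products
-/

set_option autoImplicit false
set_option linter.unusedSectionVars false

namespace Pool.Agent.K9h86.RT

open NumberField Ideal IsDedekindDomain Polynomial Pool.Agent.K4H74.ST Pool.Agent.K4H74.SC

section defs

variable {F : Type} [Field F] [NumberField F] (W : HeightOneSpectrum (𝓞 F) × ℕ+ → ℂ)

/-- the term of the logarithm of the Artin L-series of `χ` with the weights `W` -/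
noncomputable def rT (k L : Type) [Field k] [NumberField k] [Algebra F k] [Field L]
    [NumberField L] [Algebra k L] (χ : (L ≃ₐ[k] L) → ℂ) (s : ℂ)
    (x : HeightOneSpectrum (𝓞 k) × ℕ+) : ℂ := W (idx F x) * logTerm k L χ s x

/-- the weights grow at most like `q ^ b` -/
def Bd (b : ℝ) : Prop := ∃ C : ℝ, ∀ x : HeightOneSpectrum (𝓞 F) × ℕ+,
  ‖W x‖ ≤ C * ((absNorm x.1.asIdeal ^ (x.2 : ℕ) : ℕ) : ℝ) ^ b

end defs

section basic

variable {F : Type} [Field F] [NumberField F] {W : HeightOneSpectrum (𝓞 F) × ℕ+ → ℂ}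
  {k L : Type} [Field k] [NumberField k] [Algebra F k] [Field L] [NumberField L] [Algebra k L]

lemma lies_below (v : HeightOneSpectrum (𝓞 k)) :
    v.asIdeal.LiesOver (belowP F v).asIdeal := ⟨rfl⟩

lemma norm_below (v : HeightOneSpectrum (𝓞 k)) :
    absNorm (belowP F v).asIdeal ^ v.asIdeal.inertiaDeg (𝓞 F) = absNorm v.asIdeal := by
  have := lies_below (F := F) v
  have := v.isPrime
  have := (belowP F v).isPrime
  exact Ideal.absNorm_pow_inertiaDeg (belowP F v).asIdeal v.asIdeal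

lemma norm_idx (x : HeightOneSpectrum (𝓞 k) × ℕ+) :
    absNorm (idx F x).1.asIdeal ^ ((idx F x).2 : ℕ) = absNorm x.1.asIdeal ^ (x.2 : ℕ) := by
  change absNorm (belowP F x.1).asIdeal ^ (x.1.asIdeal.inertiaDeg (𝓞 F) * (x.2 : ℕ)) = _
  rw [pow_mul, norm_below]

theorem rT_summable {b : ℝ} (hW : Bd W b) (χ : (L ≃ₐ[k] L) → ℂ) {s : ℂ}
    (hs : 1 + b < s.re) : Summable (rT W k L χ s) := by
  obtain ⟨C, hC⟩ := hW
  have h1 : Summable (logTerm k L χ (s - b)) := logTerm_summable χ (by simp; linarith)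
  refine Summable.of_norm_bounded (h1.norm.mul_left C) fun x => ?_
  rw [rT, norm_mul, Pool.Agent.K9h41.DC.logTerm_shift]
  have h2 := hC (idx F x)
  rw [norm_idx] at h2
  calc _ ≤ C * ((absNorm x.1.asIdeal ^ (x.2 : ℕ) : ℕ) : ℝ) ^ b * ‖logTerm k L χ s x‖ :=
        mul_le_mul_of_nonneg_right h2 (norm_nonneg _)
    _ = _ := by ring

lemma idx_self (x : HeightOneSpectrum (𝓞 F) × ℕ+) : idx F x = x := by
  have h1 : belowP F x.1 = x.1 := by
    apply HeightOneSpectrum.ext
    ext a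
    have h2 : algebraMap (𝓞 F) (𝓞 F) a = a := by
      ext
      rfl
    change algebraMap (𝓞 F) (𝓞 F) a ∈ x.1.asIdeal ↔ _
    rw [h2]
  refine Prod.ext h1 ?_
  apply PNat.eq
  have h3 := norm_below (F := F) x.1
  rw [h1] at h3
  have h4 : 2 ≤ absNorm x.1.asIdeal := two_le_absNorm x.1
  have h5 := Nat.pow_right_injective h4 (h3.trans (pow_one _).symm)
  exact (congrArg (· * (x.2 : ℕ)) h5).trans (one_mul _)

end basic

section infl

variable {F : Type} [Field F] [NumberField F] {W : HeightOneSpectrum (𝓞 F) × ℕ+ → ℂ}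
  {k L N : Type} [Field k] [NumberField k] [Algebra F k] [Field L] [NumberField L] [Field N]
  [NumberField N] [Algebra k L] [Algebra L N] [Algebra k N] [IsScalarTower k L N] [IsGalois k L]
  [IsGalois k N]

theorem rT_infl {χ : (L ≃ₐ[k] L) → ℂ} (hχ : IsChar χ) (s : ℂ) :
    rT W k N (fun g => χ (AlgEquiv.restrictNormalHom L g)) s = rT W k L χ s := by
  funext x
  rw [rT, rT, logTerm_infl hχ]

end infl

section ind

variable {F k L : Type} [Field F] [NumberField F] [Field k] [NumberField k] [Field L]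
  [NumberField L] [Algebra F k] [Algebra k L] [Algebra F L] [IsScalarTower F k L] [IsGalois F L]
  [IsGalois k L] {W : HeightOneSpectrum (𝓞 F) × ℕ+ → ℂ}

/-- **induction** -/
theorem hasSum_rind {χ : (L ≃ₐ[k] L) → ℂ} {s l : ℂ} (hl1 : HasSum (rT W k L χ s) l) :
    HasSum (fun x => W x * logTerm F L (indChar F k L χ) s x) l := by
  classical
  let e := Equiv.sigmaFiberEquiv (idx (F := k) F)
  have h1 : HasSum (rT W k L χ s ∘ e) l := (Equiv.hasSum_iff e).mpr hl1
  refine h1.sigma fun b => ?_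
  -- the fibre
  obtain ⟨p, n⟩ := b
  have hpp := p.isPrime
  let D : Finset (Ideal (𝓞 k)) := (pr_finite k p.ne_bot).toFinset.filter
    fun q => q.inertiaDeg (𝓞 F) ∣ (n : ℕ)
  have hD : ∀ q ∈ D, q.IsPrime ∧ q.LiesOver p.asIdeal ∧ q ≠ ⊥ ∧ q.inertiaDeg (𝓞 F) ∣ (n : ℕ) := by
    intro q hq
    rw [Finset.mem_filter, Set.Finite.mem_toFinset] at hq
    obtain ⟨⟨e1, e2⟩, e3⟩ := hq
    exact ⟨e1, e2, Ideal.ne_bot_of_liesOver_of_ne_bot p.ne_bot q, e3⟩
  let T : D ≃ {x // idx (F := k) F x = (p, n)} :=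
    { toFun := fun q => ⟨(⟨q.1, (hD q.1 q.2).1, (hD q.1 q.2).2.2.1⟩,
        ⟨n / q.1.inertiaDeg (𝓞 F), by
          have := (hD q.1 q.2).1
          exact Nat.div_pos (Nat.le_of_dvd n.2 (hD q.1 q.2).2.2.2) (deg_pos q.1)⟩), by
          have h2 := (hD q.1 q.2).2.1
          refine Prod.ext ?_ ?_
          · apply HeightOneSpectrum.ext
            exact (Ideal.over_def q.1 p.asIdeal).symm
          · apply PNat.eq
            exact Nat.mul_div_cancel' (hD q.1 q.2).2.2.2⟩
      invFun := fun x => ⟨x.1.1.asIdeal, by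
          have hx1 := congrArg (fun y => y.1.asIdeal) x.2
          have hx2 := congrArg (fun y => (y.2 : ℕ)) x.2
          rw [Finset.mem_filter, Set.Finite.mem_toFinset]
          refine ⟨⟨x.1.1.isPrime, ⟨hx1.symm⟩⟩, ?_⟩
          exact ⟨x.1.2, hx2.symm⟩⟩
      left_inv := fun q => rfl
      right_inv := fun x => by
          apply Subtype.ext
          refine Prod.ext rfl ?_
          apply PNat.eq
          have hx2 : x.1.1.asIdeal.inertiaDeg (𝓞 F) * (x.1.2 : ℕ) = n :=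
            congrArg (fun y => (y.2 : ℕ)) x.2
          have := x.1.1.isPrime
          change (n : ℕ) / x.1.1.asIdeal.inertiaDeg (𝓞 F) = x.1.2
          rw [← hx2]
          exact Nat.mul_div_cancel_left _ (deg_pos _) }
  rw [← Equiv.hasSum_iff T]
  have h2 : W (p, n) * logTerm F L (indChar F k L χ) s (p, n)
      = ∑ q : D, ((fun c => (rT W k L χ s ∘ e) ⟨(p, n), c⟩) ∘ T) q := by
    have h3 := frobMean_ind (K := F) (F := k) (L := L) (χ := χ) p.ne_bot (n := (n : ℕ)) n.pos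
    change W (p, n) * (frobMean F L (indChar F k L χ) p.asIdeal (n : ℕ) / _) = _
    rw [h3, ← Finset.sum_filter]
    change _ * ((∑ q ∈ D, _) / _) = _
    rw [Finset.sum_div, ← Finset.sum_coe_sort, Finset.mul_sum]
    refine Finset.sum_congr rfl fun q _ => ?_
    have hTq : idx (F := k) F (T q).1 = (p, n) := (T q).2
    change _ = W (idx F (T q).1) * logTerm k L χ s (T q).1
    rw [hTq]
    congr 1
    obtain ⟨q, hq⟩ := q
    obtain ⟨e1, e2, e3, e4⟩ := hD q hq
    change ((q.inertiaDeg (𝓞 F) : ℂ) * frobMean k L χ q ((n : ℕ) / q.inertiaDeg (𝓞 F)))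
      / ((n : ℕ) * (absNorm p.asIdeal : ℂ) ^ (((n : ℕ) : ℂ) * s))
      = frobMean k L χ q ((n : ℕ) / q.inertiaDeg (𝓞 F)) /
          ((((n : ℕ) / q.inertiaDeg (𝓞 F) : ℕ) : ℂ) *
        (absNorm q : ℂ) ^ ((((n : ℕ) / q.inertiaDeg (𝓞 F) : ℕ) : ℂ) * s))
    obtain ⟨m, hm⟩ := e4
    have hd0 : q.inertiaDeg (𝓞 F) ≠ 0 := (deg_pos q).ne'
    have hm' : (n : ℕ) / q.inertiaDeg (𝓞 F) = m := by
      rw [hm]; exact Nat.mul_div_cancel_left _ (deg_pos q)
    rw [hm', hm]
    have h3 : (absNorm q : ℂ) ^ ((m : ℂ) * s)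
        = (absNorm p.asIdeal : ℂ) ^ (((q.inertiaDeg (𝓞 F) * m : ℕ) : ℂ) * s) := by
      rw [← Ideal.absNorm_pow_inertiaDeg p.asIdeal q]
      push_cast
      rw [mul_assoc, Complex.natCast_cpow_natCast_mul]
    rw [h3]
    push_cast
    have hd1 : (q.inertiaDeg (𝓞 F) : ℂ) ≠ 0 := by exact_mod_cast hd0
    rw [mul_assoc, mul_div_mul_left _ _ hd1]
  rw [h2]
  exact hasSum_fintype _

end ind

section wt

variable {F : Type} [Field F] [NumberField F] {E : Type} [Field E] (M : MotiveOver F E)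
  (ι : E →+* ℂ)

open Classical in
/-- the traces of the powers of the Frobenius -/
noncomputable def wt (x : HeightOneSpectrum (𝓞 F) × ℕ+) : ℂ :=
  if x.1.asIdeal ∈ M.bad then 0
  else (((M.frob x.1.asIdeal).map ι).roots.map fun α => α ^ (x.2 : ℕ)).sum

lemma pow_norm {p : HeightOneSpectrum (𝓞 F)} (hb : p.asIdeal ∉ M.bad) {α : ℂ}
    (hα : α ∈ ((M.frob p.asIdeal).map ι).roots) (j : ℕ) :
    ‖α ^ j‖ = ((absNorm p.asIdeal ^ j : ℕ) : ℝ) ^ ((M.w : ℝ) / 2) := by
  rw [norm_pow, M.pure p.asIdeal p.isPrime p.ne_bot hb ι α (Polynomial.isRoot_of_mem_roots hα)]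
  push_cast
  rw [← Real.rpow_natCast, ← Real.rpow_mul (Nat.cast_nonneg _), mul_comm,
    Real.rpow_mul (Nat.cast_nonneg _), Real.rpow_natCast]

lemma wt_bd : Bd (wt M ι) ((M.w : ℝ) / 2) := by
  refine ⟨(M.n : ℕ), fun x => ?_⟩
  have hq0 : (0 : ℝ) ≤ ((absNorm x.1.asIdeal ^ (x.2 : ℕ) : ℕ) : ℝ) ^ ((M.w : ℝ) / 2) :=
    Real.rpow_nonneg (Nat.cast_nonneg _) _
  by_cases h : x.1.asIdeal ∈ M.bad
  · rw [wt, if_pos h, norm_zero]
    exact mul_nonneg (Nat.cast_nonneg _) hq0
  · rw [wt, if_neg h]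
    refine (Pool.Agent.K9h41.DC.ms_norm _ _
      (c := ((absNorm x.1.asIdeal ^ (x.2 : ℕ) : ℕ) : ℝ) ^ ((M.w : ℝ) / 2)) fun α hα => ?_).trans ?_
    · rw [pow_norm M ι h hα]
    · refine mul_le_mul_of_nonneg_right ?_ hq0
      have h2 := Polynomial.card_roots' ((M.frob x.1.asIdeal).map ι)
      rw [Polynomial.natDegree_map, (M.monic _ x.1.isPrime x.1.ne_bot h).2] at h2
      exact_mod_cast h2

end wt

section loc

variable {F : Type} [Field F] [NumberField F] {E : Type} [Field E] (M : MotiveOver F E)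
  (ι : E →+* ℂ) {k : Type} [Field k] [NumberField k] [Algebra F k]

lemma rT_one (W : HeightOneSpectrum (𝓞 F) × ℕ+ → ℂ) (v : HeightOneSpectrum (𝓞 k)) (n : ℕ+)
    (s : ℂ) : rT W k k (fun _ => 1) s (v, n) = W (idx F (v, n)) *
      (1 / ((n : ℕ) * (absNorm v.asIdeal : ℂ) ^ (((n : ℕ) : ℂ) * s))) := by
  rw [rT, logTerm, Pool.Agent.K9h41.DC.frobMean_one]

/-- the local factor -/
theorem hasSum_local (v : HeightOneSpectrum (𝓞 k)) {s : ℂ} (hs : (M.w : ℝ) / 2 < s.re) :
    ∃ l : ℂ, HasSum (fun n : ℕ+ => rT (wt M ι) k k (fun _ => 1) s (v, n)) l ∧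
      Complex.exp l = eulerFactor M ι k v s := by
  set N := absNorm v.asIdeal with hN
  have hN2 : 2 ≤ N := two_le_absNorm v
  have hN0 : (0 : ℝ) < N := by exact_mod_cast (by omega : 0 < N)
  by_cases hb : (belowP F v).asIdeal ∈ M.bad
  · refine ⟨0, ?_, ?_⟩
    · convert hasSum_zero using 2 with n
      rw [rT_one, wt, if_pos, zero_mul]
      exact hb
    · rw [Complex.exp_zero, eulerFactor, if_pos (by exact hb)]
  · let R : Multiset ℂ := ((M.frob (belowP F v).asIdeal).map ι).roots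
    let z : ℂ → ℂ := fun α => α ^ v.asIdeal.inertiaDeg (𝓞 F) * (N : ℂ) ^ (-s)
    have hz : ∀ α ∈ R, ‖z α‖ < 1 := by
      intro α hα
      have h1 : ‖z α‖ = (N : ℝ) ^ ((M.w : ℝ) / 2 - s.re) := by
        rw [norm_mul, pow_norm M ι hb hα, norm_below,
          Complex.norm_natCast_cpow_of_pos (by omega), Complex.neg_re, Real.rpow_sub hN0,
          Real.rpow_neg hN0.le]
        rfl
      rw [h1]
      exact Real.rpow_lt_one_of_one_lt_of_neg (by exact_mod_cast (by omega : 1 < N))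
        (by linarith)
    refine ⟨(R.map fun α => -Complex.log (1 - z α)).sum, ?_, ?_⟩
    · have h1 := Pool.Agent.K9h41.DC.ms_hasSum R z hz
      convert h1 using 2 with n
      rw [rT_one, wt, if_neg (by exact hb), ← hN]
      have h2 : ∀ α, z α ^ (n : ℕ) = α ^ (v.asIdeal.inertiaDeg (𝓞 F) * (n : ℕ)) *
          ((N : ℂ) ^ (((n : ℕ) : ℂ) * s))⁻¹ := by
        intro α
        rw [mul_pow, ← pow_mul, Complex.cpow_neg, inv_pow, Complex.cpow_nat_mul]
      simp only [h2]
      rw [Multiset.sum_map_mul_right]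
      change (R.map fun α => α ^ (v.asIdeal.inertiaDeg (𝓞 F) * (n : ℕ))).sum * _
        = (R.map fun α => α ^ (v.asIdeal.inertiaDeg (𝓞 F) * (n : ℕ))).sum * _ / _
      rw [mul_div_assoc]
      congr 1
      rw [one_div, mul_inv, div_eq_mul_inv, mul_comm]
    · rw [Complex.exp_multiset_sum, Multiset.map_map, eulerFactor, if_neg (by exact hb),
        ← Multiset.prod_map_inv]
      congr 1
      refine Multiset.map_congr rfl fun α hα => ?_
      have h3 : 1 - z α ≠ 0 := by
        intro h0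
        have h4 := hz α hα
        have h5 : z α = 1 := (sub_eq_zero.mp h0).symm
        rw [h5, norm_one] at h4
        exact lt_irrefl _ h4
      change Complex.exp (-Complex.log (1 - z α)) = _
      rw [Complex.exp_neg, Complex.exp_log h3]

/-- the logarithm of the L-function -/
noncomputable def lg (k : Type) [Field k] [NumberField k] [Algebra F k] (s : ℂ) : ℂ :=
  ∑' x, rT (wt M ι) k k (fun _ => 1) s x

/-- **the Euler product** -/
theorem hasProd_euler {s : ℂ} (hs : 1 + (M.w : ℝ) / 2 < s.re) :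
    HasProd (fun v => eulerFactor M ι k v s) (Complex.exp (lg M ι k s)) := by
  have h1 : Summable (rT (wt M ι) k k (fun _ => 1) s) := rT_summable (wt_bd M ι) _ hs
  choose l hl hl' using fun v : HeightOneSpectrum (𝓞 k) =>
    hasSum_local M ι v (s := s) (by linarith)
  have h2 := (HasSum.prod_fiberwise h1.hasSum hl).cexp
  have h3 : (fun v => eulerFactor M ι k v s) = Complex.exp ∘ l := by
    funext v
    exact (hl' v).symm
  rw [h3, lg]
  exact h2

end loc

end Pool.Agent.K9h86.RT
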