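import Mathlib
import Pool.Agent.K9h41.DC.Mt
import Pool.Agent.K9h86.RT.Ls

/-!
# The relations between the L-functions of the base changes
-/

set_option autoImplicit false
set_option linter.unusedSectionVars false

namespace Pool.Agent.K9h86.RT

open NumberField IntermediateField IsDedekindDomain Pool.Agent.R389
  Pool.Agent.K4H74.ST Pool.Agent.K4H74.SC Pool.Agent.K9h41.DC

section lin

variable {K L : Type} [Field K] [NumberField K] [Field L] [NumberField L] [Algebra K L]

lemma frobMean_smul (c : ℂ) (χ : (L ≃ₐ[K] L) → ℂ) {p : Ideal (𝓞 K)} (hp : p ≠ ⊥) [p.IsPrime]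
    (n : ℕ) : frobMean K L (fun g => c * χ g) p n = c * frobMean K L χ p n := by
  classical
  have hft : Fintype (L ≃ₐ[K] L) := Fintype.ofFinite _
  rw [frobMean, frobMean, ← mul_div_assoc]
  congr 1
  rw [frobSet_eq hp n, finsum_mem_coe_finset, finsum_mem_coe_finset, Finset.mul_sum]

lemma logTerm_sum {I : Type} (S : Finset I) (c : I → ℂ) (χ : I → (L ≃ₐ[K] L) → ℂ) (s : ℂ)
    (x : HeightOneSpectrum (𝓞 K) × ℕ+) :
    logTerm K L (fun g => ∑ i ∈ S, c i * χ i g) s x = ∑ i ∈ S, c i * logTerm K L (χ i) s x := by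
  classical
  have hx := x.1.isPrime
  induction S using Finset.induction_on with
  | empty =>
    simp only [Finset.sum_empty]
    have h1 := frobMean_smul (K := K) (L := L) 0 (fun _ => 0) x.1.ne_bot (x.2 : ℕ)
    simp only [zero_mul] at h1
    rw [logTerm, h1, zero_div]
  | insert a S ha ih =>
    have h1 : (fun g => ∑ i ∈ insert a S, c i * χ i g)
        = (fun g => c a * χ a g) + fun g => ∑ i ∈ S, c i * χ i g := by
      funext g
      rw [Pi.add_apply, Finset.sum_insert ha]
    rw [h1, Finset.sum_insert ha, ← ih, logTerm, frobMean_add _ _ x.1.ne_bot,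
      frobMean_smul _ _ x.1.ne_bot, add_div, logTerm, logTerm, mul_div_assoc]

end lin

section rel

variable {F : Type} [Field F] [NumberField F] {K : Type} [Field K] [NumberField K] [Algebra F K]
  [IsGalois F K]

lemma rT_self (W : HeightOneSpectrum (𝓞 F) × ℕ+ → ℂ) (χ : (K ≃ₐ[F] K) → ℂ) (s : ℂ) :
    rT W F K χ s = fun x => W x * logTerm F K χ s x := by
  funext x
  rw [rT, idx_self]

/-- `k` has the same invariants as the fixed field of `V` -/
structure Mat (V : Subgroup (K ≃ₐ[F] K)) (k : Type) [Field k] [NumberField k] [Algebra F k] :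
    Prop where
  /-- the logarithm of the L-function -/
  lgEq : ∀ {E : Type} [Field E] (M : MotiveOver F E) (ι : E →+* ℂ) {s : ℂ},
    1 + (M.w : ℝ) / 2 < s.re →
    lg M ι k s = ∑' x, wt M ι x * logTerm F K (ind V (fun _ => (1 : ℂ))) s x
  /-- the degree -/
  deg : fx V 1 = Module.finrank F k

lemma mat_fixed (V : Subgroup (K ≃ₐ[F] K)) : Mat V (fixedField V) where
  lgEq M ι s hs := by
    have h1 : Summable (rT (wt M ι) (fixedField V) (fixedField V) (fun _ => 1) s) :=
      rT_summable (wt_bd M ι) _ hs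
    have h2 : HasSum (rT (wt M ι) (fixedField V) K (fun _ => 1) s) (lg M ι (fixedField V) s) := by
      have h0 := rT_infl (W := wt M ι) (k := fixedField V) (L := fixedField V) (N := K)
        (χ := fun _ => 1) (isChar_one _) s
      rw [h0]
      exact h1.hasSum
    have h3 := hasSum_rind (F := F) h2
    rw [ind_fixed]
    exact h3.tsum_eq.symm
  deg := by
    have hfin : FiniteDimensional F K := Module.Finite.of_restrictScalars_finite ℚ F K
    rw [finrank_eq_fixingSubgroup_index, fixingSubgroup_fixedField, fx, Subgroup.index]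
    simp only [one_smul]
    exact Nat.card_congr (Equiv.subtypeUnivEquiv fun _ => trivial)

lemma ind_top' : ind (⊤ : Subgroup (K ≃ₐ[F] K)) (fun _ => (1 : ℂ)) = fun _ => 1 := by
  classical
  have : Fintype (K ≃ₐ[F] K) := Fintype.ofFinite _
  funext g
  rw [ind_eq]
  have h1 : ∀ x : K ≃ₐ[F] K, ext (⊤ : Subgroup (K ≃ₐ[F] K)) (fun _ => (1 : ℂ)) (x⁻¹ * g * x) = 1 :=
    fun x => ext_mem _ _ (Subgroup.mem_top _)
  rw [Finset.sum_congr rfl (fun x _ => h1 x)]
  have h2 : Nat.card (⊤ : Subgroup (K ≃ₐ[F] K)) = Fintype.card (K ≃ₐ[F] K) := by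
    rw [← Nat.card_eq_fintype_card]
    exact Nat.card_congr Subgroup.topEquiv.toEquiv
  rw [h2, Finset.sum_const, Finset.card_univ, nsmul_eq_mul, mul_one]
  exact inv_mul_cancel₀ (by exact_mod_cast Fintype.card_pos.ne')

lemma mat_top : Mat (⊤ : Subgroup (K ≃ₐ[F] K)) F where
  lgEq M ι s hs := by
    rw [ind_top', lg]
    have h1 := rT_infl (W := wt M ι) (k := F) (L := F) (N := K) (χ := fun _ => 1)
      (isChar_one _) s
    rw [← h1]
    exact tsum_congr fun x => congrFun (rT_self (wt M ι) (fun _ => 1) s) x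
  deg := by
    have h := congrFun (ind_top' (F := F) (K := K)) 1
    rw [ind_one] at h
    rw [Module.finrank_self]
    exact_mod_cast h

/-- the relation between the logarithms of the L-functions -/
lemma lg_rel {V : Subgroup (K ≃ₐ[F] K)} {k : Type} [Field k] [NumberField k] [Algebra F k]
    (hk : Mat V k) [Fintype (Subgroup (K ≃ₐ[F] K))] {c : Subgroup (K ≃ₐ[F] K) → ℤ}
    (hc : ∀ g : K ≃ₐ[F] K, ∑ U, (c U : ℂ) * ind U (fun _ => (1 : ℂ)) g
      = ind V (fun _ => (1 : ℂ)) g) {E : Type} [Field E] (M : MotiveOver F E) (ι : E →+* ℂ)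
    {s : ℂ} (hs : 1 + (M.w : ℝ) / 2 < s.re) :
    ∑ U, c U * lg M ι (fixedField U) s = lg M ι k s := by
  rw [hk.lgEq M ι hs]
  have h1 : ∀ U : Subgroup (K ≃ₐ[F] K),
      Summable fun x => wt M ι x * logTerm F K (ind U (fun _ => (1 : ℂ))) s x := by
    intro U
    have := rT_summable (wt_bd M ι) (k := F) (L := K) (ind U (fun _ => (1 : ℂ))) hs
    rwa [rT_self] at this
  have h2 : ∀ U : Subgroup (K ≃ₐ[F] K), (c U : ℂ) * lg M ι (fixedField U) s
      = ∑' x, (c U : ℂ) * (wt M ι x * logTerm F K (ind U (fun _ => (1 : ℂ))) s x) := by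
    intro U
    rw [(mat_fixed U).lgEq M ι hs, tsum_mul_left]
  rw [Finset.sum_congr rfl (fun U _ => h2 U),
    ← Summable.tsum_finsetSum (fun U _ => (h1 U).mul_left _)]
  refine tsum_congr fun x => ?_
  have h3 : ind V (fun _ => (1 : ℂ)) = fun g => ∑ U, (c U : ℂ) * ind U (fun _ => (1 : ℂ)) g :=
    funext fun g => (hc g).symm
  rw [h3, logTerm_sum, Finset.mul_sum]
  exact Finset.sum_congr rfl fun U _ => by ring

end rel

end Pool.Agent.K9h86.RT
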