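import Mathlib
import Pool.Agent.K9h86.RT.Df

/-!
# The numbers `Δ` of the extensions of a field
-/

set_option autoImplicit false
set_option linter.unusedSectionVars false

namespace Pool.Agent.K9h86.RT

open NumberField

section one

variable {k : Type} [Field k] [NumberField k]

lemma isDelta_exists (k : Type) [Field k] [NumberField k] : ∃ δ : ℂ, IsDelta k δ := by
  by_cases h : ∃ (D : maximalRealSubfield k) (y : k), IsCMElement k D y
  · obtain ⟨D, y, h⟩ := h
    obtain ⟨r, hr⟩ := IsAlgClosed.exists_pow_nat_eq ((Algebra.norm ℚ D : ℚ) : ℂ) (n := 2) two_pos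
    exact ⟨_, Or.inl ⟨D, y, r, h, hr, rfl⟩⟩
  · push Not at h
    exact ⟨1, Or.inr ⟨h, rfl⟩⟩

lemma real_of_mem (x : maximalRealSubfield k) (φ : k →+* ℂ) : ((φ (x : k)).re : ℂ) = φ (x : k) := by
  have h : star (φ (x : k)) = φ (x : k) := x.2 φ
  exact Complex.conj_eq_iff_re.mp h

lemma cm_ne {D : maximalRealSubfield k} {y : k} (h : IsCMElement k D y) : (D : k) ≠ 0 := by
  obtain ⟨φ⟩ : Nonempty (k →+* ℂ) := inferInstance
  intro h0
  have h1 := h.1 φ
  rw [h0, map_zero, Complex.zero_re] at h1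
  exact lt_irrefl _ h1

lemma even_finrank {D : maximalRealSubfield k} {y : k} (h : IsCMElement k D y) :
    Even (Module.finrank (maximalRealSubfield k) k) := by
  by_contra h0
  rw [Nat.not_even_iff_odd] at h0
  obtain ⟨j, hj⟩ := h0
  have hD : D ≠ 0 := fun h1 => cm_ne h (by rw [h1]; rfl)
  have h1 : (Algebra.norm (maximalRealSubfield k) y) ^ 2 = D ^ (2 * j + 1) := by
    rw [← map_pow, h.2, ← hj]
    exact Algebra.norm_algebraMap D
  have h2 : (Algebra.norm (maximalRealSubfield k) y / D ^ j) ^ 2 = D := by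
    rw [div_pow, h1, div_eq_iff (by positivity)]
    ring
  obtain ⟨φ⟩ : Nonempty (k →+* ℂ) := inferInstance
  have h3 := h.1 φ
  have h4 := real_of_mem (Algebra.norm (maximalRealSubfield k) y / D ^ j) φ
  rw [← h2] at h3
  rw [show (((Algebra.norm (maximalRealSubfield k) y / D ^ j) ^ 2 : maximalRealSubfield k) : k)
    = ((Algebra.norm (maximalRealSubfield k) y / D ^ j : maximalRealSubfield k) : k) ^ 2 from rfl,
    map_pow, ← h4, ← Complex.ofReal_pow, Complex.ofReal_re] at h3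
  exact absurd h3 (not_lt.mpr (sq_nonneg _))

lemma norm_neg_pos {D : maximalRealSubfield k} (h : ∀ φ : k →+* ℂ, (φ (D : k)).re < 0) :
    0 < Algebra.norm ℚ (-D) := by
  have h1 := Algebra.norm_eq_prod_embeddings ℚ ℂ (-D)
  have h2 : ∀ σ : maximalRealSubfield k →ₐ[ℚ] ℂ, ∃ r : ℝ, 0 < r ∧ σ (-D) = (r : ℂ) := by
    intro σ
    let := σ.toRingHom.toAlgebra
    let φ : k →ₐ[maximalRealSubfield k] ℂ := IsAlgClosed.lift
    have h3 : φ.toRingHom (D : k) = σ D := φ.commutes D
    refine ⟨-(φ.toRingHom (D : k)).re, by linarith [h φ.toRingHom], ?_⟩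
    rw [map_neg, ← h3, Complex.ofReal_neg, real_of_mem]
  choose r hr0 hr using h2
  rw [Finset.prod_congr rfl (fun σ _ => hr σ)] at h1
  have h3 : ((Algebra.norm ℚ (-D) : ℚ) : ℝ) = ∏ σ, r σ := by
    have h4 : (((Algebra.norm ℚ (-D) : ℚ) : ℝ) : ℂ) = ((∏ σ, r σ : ℝ) : ℂ) := by
      rw [Complex.ofReal_prod, ← h1]
      simp
    exact_mod_cast h4
  have h4 : (0 : ℝ) < ((Algebra.norm ℚ (-D) : ℚ) : ℝ) := by
    rw [h3]
    exact Finset.prod_pos fun σ _ => hr0 σ
  exact_mod_cast h4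

/-- the norm of an element of the subfield -/
lemma norm_sub (x : maximalRealSubfield k) :
    Algebra.norm ℚ (x : k) = Algebra.norm ℚ x ^ Module.finrank (maximalRealSubfield k) k := by
  have h1 : Algebra.norm ℚ (Algebra.norm (maximalRealSubfield k) (x : k))
      = Algebra.norm ℚ (x : k) := Algebra.norm_norm
  rw [← h1, show Algebra.norm (maximalRealSubfield k) (x : k)
    = x ^ Module.finrank (maximalRealSubfield k) k from Algebra.norm_algebraMap x, map_pow]

/-- the square of `i^(d/2) Δ` -/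
lemma delta_sq {D : maximalRealSubfield k} {y : k} {r : ℂ} (h : IsCMElement k D y)
    (hr : r ^ 2 = (Algebra.norm ℚ D : ℂ)) :
    (Complex.I ^ (Module.finrank ℚ k / 2) *
      r ^ (Module.finrank (maximalRealSubfield k) k / 2)) ^ 2 = ((|Algebra.norm ℚ y| : ℚ) : ℂ) := by
  obtain ⟨c, hc⟩ := even_finrank h
  have hd : Module.finrank ℚ k / 2 = Module.finrank ℚ (maximalRealSubfield k) * c := by
    rw [← Module.finrank_mul_finrank ℚ (maximalRealSubfield k) k, hc]
    have : Module.finrank ℚ (maximalRealSubfield k) * (c + c)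
      = 2 * (Module.finrank ℚ (maximalRealSubfield k) * c) := by ring
    rw [this]
    omega
  have hc' : Module.finrank (maximalRealSubfield k) k / 2 = c := by omega
  have h1 : Algebra.norm ℚ (-D) = (-1) ^ Module.finrank ℚ (maximalRealSubfield k)
      * Algebra.norm ℚ D := by
    have h2 : -D = algebraMap ℚ (maximalRealSubfield k) (-1) * D := by simp
    rw [h2, map_mul, Algebra.norm_algebraMap]
  have h2 : (Complex.I ^ (Module.finrank ℚ k / 2) *
      r ^ (Module.finrank (maximalRealSubfield k) k / 2)) ^ 2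
      = ((Algebra.norm ℚ (-D) ^ c : ℚ) : ℂ) := by
    rw [hd, hc', h1]
    push_cast
    rw [← hr, mul_pow, mul_pow, ← pow_mul, ← pow_mul, ← pow_mul, ← pow_mul,
      mul_comm (Module.finrank ℚ (maximalRealSubfield k) * c) 2, pow_mul Complex.I 2,
      Complex.I_sq, mul_comm c 2]
  rw [h2]
  congr 1
  have h3 : (Algebra.norm ℚ (-D) ^ c) ^ 2 = (Algebra.norm ℚ y) ^ 2 := by
    have h4 := norm_sub (-D)
    rw [hc] at h4
    have h5 : ((-D : maximalRealSubfield k) : k) = algebraMap ℚ k (-1) * y ^ 2 := by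
      rw [h.2]
      simp
    rw [h5, map_mul, Algebra.norm_algebraMap, map_pow] at h4
    have h6 : Even (Module.finrank ℚ k) := by
      rw [← Module.finrank_mul_finrank ℚ (maximalRealSubfield k) k]
      exact (even_finrank h).mul_left _
    rw [h6.neg_one_pow, one_mul] at h4
    rw [h4, ← pow_mul]
    congr 1
    ring
  have h4 : 0 ≤ Algebra.norm ℚ (-D) ^ c := (pow_pos (norm_neg_pos h.1) c).le
  rw [← abs_of_nonneg h4]
  exact (sq_eq_sq_iff_abs_eq_abs _ _).mp h3

lemma imag_sq {z : ℂ} (h : star z = -z) : (z ^ 2).re = -Complex.normSq z ∧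
    star (z ^ 2) = z ^ 2 := by
  have h1 : z.re = 0 := by
    have := congrArg Complex.re h
    simp at this
    linarith
  constructor
  · rw [sq, Complex.mul_re, Complex.normSq_apply, h1]
    ring
  · rw [star_pow, h, neg_sq]

/-- a totally imaginary element -/
lemma cm_of_imag {y : k} (hy : y ≠ 0) (h : ∀ φ : k →+* ℂ, star (φ y) = -φ y) :
    ∃ D : maximalRealSubfield k, IsCMElement k D y := by
  refine ⟨⟨y ^ 2, fun φ => ?_⟩, fun φ => ?_, rfl⟩
  · rw [map_pow]
    exact (imag_sq (h φ)).2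
  · change (φ (y ^ 2)).re < 0
    rw [map_pow, (imag_sq (h φ)).1]
    have : 0 < Complex.normSq (φ y) := Complex.normSq_pos.mpr (by rwa [Ne, map_eq_zero])
    linarith

lemma imag_of_cm {D : maximalRealSubfield k} {y : k} (h : IsCMElement k D y) (φ : k →+* ℂ) :
    star (φ y) = -φ y := by
  have h1 := h.1 φ
  have h2 := real_of_mem D φ
  rw [← h.2, map_pow] at h1 h2
  have h3 : (φ y ^ 2).im = 0 := by
    rw [← h2]
    exact Complex.ofReal_im _
  rw [sq, Complex.mul_re] at h1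
  rw [sq, Complex.mul_im] at h3
  have h4 : (φ y).re = 0 := by
    by_contra h0
    have h5 : (φ y).im = 0 := by
      have : 2 * ((φ y).re * (φ y).im) = 0 := by linarith
      rcases mul_eq_zero.mp (mul_eq_zero.mp this |>.resolve_left two_ne_zero) with h6 | h6
      · exact absurd h6 h0
      · exact h6
    rw [h5] at h1
    nlinarith [sq_nonneg (φ y).re]
  apply Complex.ext
  · rw [Complex.neg_re, h4, neg_zero, ← h4]
    exact Complex.conj_re _
  · rw [Complex.neg_im]
    exact Complex.conj_im _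

end one

section two

variable {F : Type} [Field F] [NumberField F]

/-- the number `i^(d/2) Δ` of an extension of `F` is a rational multiple of a power -/
lemma delta_odd {y₀ : F} (hy0 : y₀ ≠ 0) (hy : ∀ φ : F →+* ℂ, star (φ y₀) = -φ y₀) {t : ℂ}
    (ht : t ^ 2 = ((|Algebra.norm ℚ y₀| : ℚ) : ℂ)) (k : Type) [Field k] [NumberField k]
    [Algebra F k] {δ : ℂ} (hδ : IsDelta k δ) :
    ∃ q : ℚ, q ≠ 0 ∧ Complex.I ^ (Module.finrank ℚ k / 2) * δ = q * t ^ Module.finrank F k := by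
  have hy1 : ∀ φ : k →+* ℂ, star (φ (algebraMap F k y₀)) = -φ (algebraMap F k y₀) := fun φ =>
    hy (φ.comp (algebraMap F k))
  have hy2 : algebraMap F k y₀ ≠ 0 := by rwa [Ne, map_eq_zero]
  rcases hδ with ⟨D, y, r, h, hr, rfl⟩ | ⟨h, -⟩
  swap
  · obtain ⟨D, hD⟩ := cm_of_imag hy2 hy1
    exact absurd hD (h D _)
  obtain ⟨c, hc⟩ := even_finrank h
  have hx : y / algebraMap F k y₀ ∈ maximalRealSubfield k := by
    intro φ
    rw [map_div₀, star_div₀, hy1 φ, imag_of_cm h φ, neg_div_neg_eq]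
  have hyne : y ≠ 0 := by
    rintro rfl
    apply cm_ne h
    rw [← h.2, zero_pow two_ne_zero]
  have h1 : Algebra.norm ℚ y = (Algebra.norm ℚ (⟨_, hx⟩ : maximalRealSubfield k) ^ c) ^ 2 *
      Algebra.norm ℚ y₀ ^ Module.finrank F k := by
    have h2 : y = ((⟨_, hx⟩ : maximalRealSubfield k) : k) * algebraMap F k y₀ :=
      (div_mul_cancel₀ y hy2).symm
    have h3 : Algebra.norm ℚ (algebraMap F k y₀) = Algebra.norm ℚ y₀ ^ Module.finrank F k := by
      have h4 : Algebra.norm ℚ (Algebra.norm F (algebraMap F k y₀))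
        = Algebra.norm ℚ (algebraMap F k y₀) := Algebra.norm_norm
      rw [← h4, Algebra.norm_algebraMap, map_pow]
    conv_lhs => rw [h2]
    rw [map_mul, norm_sub, h3, hc, ← pow_mul]
    congr 2
    ring
  have h2 := delta_sq h hr
  have h3 : (|Algebra.norm ℚ y| : ℚ) = (Algebra.norm ℚ (⟨_, hx⟩ : maximalRealSubfield k) ^ c) ^ 2 *
      |Algebra.norm ℚ y₀| ^ Module.finrank F k := by
    rw [h1, abs_mul, abs_of_nonneg (sq_nonneg _), abs_pow]
  have h4 : (Complex.I ^ (Module.finrank ℚ k / 2) *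
      r ^ (Module.finrank (maximalRealSubfield k) k / 2)) ^ 2
      = (((Algebra.norm ℚ (⟨_, hx⟩ : maximalRealSubfield k) ^ c : ℚ) : ℂ) *
        t ^ Module.finrank F k) ^ 2 := by
    have h6 : (t ^ Module.finrank F k) ^ 2 = (t ^ 2) ^ Module.finrank F k := by
      rw [← pow_mul, ← pow_mul, mul_comm]
    rw [h2, h3, mul_pow, h6, ht]
    push_cast
    rfl
  have hq0 : Algebra.norm ℚ (⟨_, hx⟩ : maximalRealSubfield k) ^ c ≠ 0 := by
    apply pow_ne_zero
    rw [Ne, Algebra.norm_eq_zero_iff]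
    intro h5
    have h6 := congrArg Subtype.val h5
    exact div_ne_zero hyne hy2 h6
  rcases sq_eq_sq_iff_eq_or_eq_neg.mp h4 with h5 | h5
  · exact ⟨_, hq0, h5⟩
  · exact ⟨-(Algebra.norm ℚ (⟨_, hx⟩ : maximalRealSubfield k) ^ c), neg_ne_zero.mpr hq0, by
      rw [h5]
      push_cast
      ring⟩

/-- the even powers are rational -/
lemma delta_even (k : Type) [Field k] [NumberField k] {δ : ℂ} (hδ : IsDelta k δ) (j : ℕ) :
    ∃ q : ℚ, q ≠ 0 ∧ (Complex.I ^ (Module.finrank ℚ k / 2) * δ) ^ (2 * j) = q := by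
  rcases hδ with ⟨D, y, r, h, hr, rfl⟩ | ⟨-, rfl⟩
  · have h2 := delta_sq h hr
    have hyne : y ≠ 0 := by
      rintro rfl
      apply cm_ne h
      rw [← h.2, zero_pow two_ne_zero]
    refine ⟨|Algebra.norm ℚ y| ^ j, pow_ne_zero _ (abs_ne_zero.mpr ?_), ?_⟩
    · rwa [Ne, Algebra.norm_eq_zero_iff]
    · rw [pow_mul, h2]
      push_cast
      rfl
  · refine ⟨((-1) ^ (Module.finrank ℚ k / 2)) ^ j, pow_ne_zero _ (pow_ne_zero _ (by norm_num)), ?_⟩
    have h6 : (Complex.I ^ (Module.finrank ℚ k / 2)) ^ 2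
        = (Complex.I ^ 2) ^ (Module.finrank ℚ k / 2) := by
      rw [← pow_mul, ← pow_mul, mul_comm]
    rw [mul_one, pow_mul, h6, Complex.I_sq]
    push_cast
    rfl

/-- **the numbers `(i^(d/2) Δ)^n` of the extensions of `F`** -/
theorem delta_key {E : Type} [Field E] (M : MotiveOver F E) : ∃ t : ℂ, t ≠ 0 ∧
    ∀ (k : Type) [Field k] [NumberField k] [Algebra F k] (δ : ℂ), IsDelta k δ →
      ∃ q : ℚ, q ≠ 0 ∧ (Complex.I ^ (Module.finrank ℚ k / 2) * δ) ^ M.n
        = q * t ^ Module.finrank F k := by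
  rcases Nat.even_or_odd M.n with h | h
  · obtain ⟨j, hj⟩ := h
    refine ⟨1, one_ne_zero, fun k _ _ _ δ hδ => ?_⟩
    obtain ⟨q, hq0, hq⟩ := delta_even k hδ j
    refine ⟨q, hq0, ?_⟩
    rw [hj, ← two_mul, hq, one_pow, mul_one]
  · obtain ⟨y, hy0, hy⟩ := M.odd_cm h
    obtain ⟨t, ht⟩ := IsAlgClosed.exists_pow_nat_eq ((|Algebra.norm ℚ y| : ℚ) : ℂ) (n := 2) two_pos
    have ht0 : t ≠ 0 := by
      rintro rfl
      rw [zero_pow two_ne_zero] at ht
      have h1 : |Algebra.norm ℚ y| = 0 := by exact_mod_cast ht.symm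
      rw [abs_eq_zero, Algebra.norm_eq_zero_iff] at h1
      exact hy0 h1
    refine ⟨t ^ M.n, pow_ne_zero _ ht0, fun k _ _ _ δ hδ => ?_⟩
    obtain ⟨q, hq0, hq⟩ := delta_odd hy0 hy ht k hδ
    refine ⟨q ^ M.n, pow_ne_zero _ hq0, ?_⟩
    rw [hq, mul_pow, ← pow_mul, ← pow_mul, mul_comm M.n]
    push_cast
    rfl

end two

end Pool.Agent.K9h86.RT
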