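import Mathlib
import Pool.Agent.K9h86.RT.De
import Pool.Agent.K9h86.RT.Rl

/-!
# The ratios of the critical values and relations between permutation characters
-/

set_option autoImplicit false
set_option linter.unusedSectionVars false

namespace Pool.Agent.K9h86.RT

open NumberField IntermediateField IsDedekindDomain Filter Topology Pool.Agent.R389
  Pool.Agent.K4H74.ST Pool.Agent.K4H74.SC

lemma prod_zpow {ι : Type} (s : Finset ι) {a : ℂ} (ha : a ≠ 0) (t : ι → ℤ) :
    ∏ i ∈ s, a ^ t i = a ^ ∑ i ∈ s, t i := by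
  classical
  induction s using Finset.induction_on with
  | empty => simp
  | insert x s hx ih => rw [Finset.prod_insert hx, Finset.sum_insert hx, ih, zpow_add₀ ha]

lemma prod_zpow_nat {ι : Type} (s : Finset ι) {a : ℂ} (ha : a ≠ 0) (t : ι → ℕ) (c : ι → ℤ) {r : ℕ}
    (h : ∑ i ∈ s, c i * (t i : ℤ) = r) : ∏ i ∈ s, (a ^ t i) ^ c i = a ^ r := by
  rw [← zpow_natCast, ← h, ← prod_zpow s ha]
  refine Finset.prod_congr rfl fun i _ => ?_
  rw [← zpow_natCast, ← zpow_mul, mul_comm]

variable {F : Type} [Field F] [NumberField F] {E : Type} [Field E] [CharZero E]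
  (M : MotiveOver F E)

/-- the archimedean factor over `F` -/
noncomputable def gam (s : ℂ) : ℂ := (M.hodge.map fun p : ℤ => Complex.Gammaℂ (s - p)).prod

lemma gam_ne {s : ℂ} (h : ∀ p ∈ M.hodge, (p : ℝ) < s.re) : gam M s ≠ 0 := by
  rw [gam, Ne, Multiset.prod_eq_zero_iff, Multiset.mem_map]
  rintro ⟨p, hp, h0⟩
  rw [Complex.Gammaℂ_def] at h0
  have h1 : 0 < (s - (p : ℂ)).re := by
    rw [Complex.sub_re, Complex.intCast_re]
    linarith [h p hp]
  have h2 : (2 * (2 * (Real.pi : ℂ)) ^ (-(s - (p : ℂ)))) ≠ 0 := by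
    refine mul_ne_zero two_ne_zero ?_
    rw [Complex.cpow_ne_zero_iff]
    left
    exact mul_ne_zero two_ne_zero (by exact_mod_cast Real.pi_ne_zero)
  exact mul_ne_zero h2 (Complex.Gamma_ne_zero_of_re_pos h1) h0

/-- the numbers of the equality for one field -/
structure Good (ι : E →+* ℂ) (k : Type) [Field k] [NumberField k] [Algebra F k] (m : ℤ) (e : E)
    (a : ℂ) (f : ℂ → ℂ) (z z' : ℂ) : Prop where
  isL : IsL M ι k f
  lim : Tendsto f (𝓝[≠] (m : ℂ)) (𝓝 z)
  lim' : Tendsto f (𝓝[≠] ((m : ℂ) + 1)) (𝓝 z')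
  ne : z' ≠ 0
  eq : (Linf M k m * z) / (Linf M k ((m : ℂ) + 1) * z') = ι e * a

variable {K : Type} [Field K] [NumberField K] [Algebra F K] [IsGalois F K]

theorem assemble {V : Subgroup (K ≃ₐ[F] K)} {k : Type} [Field k] [NumberField k] [Algebra F k]
    (hk : Mat V k) {m : ℤ} (hm : IsCritical M m) (hm' : IsCritical M (m + 1))
    (h : ∀ U : Subgroup (K ≃ₐ[F] K), Hyperelementary U → RatioEquality M (fixedField U) m) :
    RatioEquality M k m := by
  classical
  have : Fintype (Subgroup (K ≃ₐ[F] K)) := Fintype.ofFinite _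
  obtain ⟨c, hc1, hc2, hc3, -⟩ := Pool.Agent.K9h41.DC.exists_coeff' V
  obtain ⟨t, ht0, ht⟩ := delta_key M
  -- the data of the fixed fields
  have h' : ∀ U : Subgroup (K ≃ₐ[F] K), ∃ (e : E) (q : ℚ), e ≠ 0 ∧ q ≠ 0 ∧ (c U ≠ 0 →
      ∀ ι : E →+* ℂ, ∃ (f : ℂ → ℂ) (z z' : ℂ), Good M ι (fixedField U) m e
        (q * t ^ Module.finrank F (fixedField U)) f z z') := by
    intro U
    by_cases hU : c U = 0
    · exact ⟨1, 1, one_ne_zero, one_ne_zero, fun h0 => absurd hU h0⟩
    · obtain ⟨e, he, δ, hδ, h2⟩ := h U (hc1 U hU).1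
      obtain ⟨q, hq0, hq⟩ := ht (fixedField U) δ hδ
      refine ⟨e, q, he, hq0, fun _ ι => ?_⟩
      obtain ⟨f, z, z', h3, h4, h5, h6, h7⟩ := h2 ι
      exact ⟨f, z, z', h3, h4, h5, h6, by rw [h7, hq]⟩
  choose e q he hq0 hg using h'
  obtain ⟨δ, hδ⟩ := isDelta_exists k
  obtain ⟨q', hq'0, hq'⟩ := ht k δ hδ
  have hdeg : ∑ U, c U * (Module.finrank F (fixedField U) : ℤ) = Module.finrank F k := by
    rw [← hk.deg, ← hc3 1]
    exact Finset.sum_congr rfl fun U _ => by rw [(mat_fixed U).deg]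
  have hg1 : gam M (m : ℂ) ≠ 0 := gam_ne M fun p hp => by
    rw [Complex.intCast_re]
    exact_mod_cast (hm p hp).1
  have hg2 : gam M ((m : ℂ) + 1) ≠ 0 := gam_ne M fun p hp => by
    rw [Complex.add_re, Complex.intCast_re, Complex.one_re]
    exact_mod_cast (hm' p hp).1
  refine ⟨(∏ U, e U ^ c U) * ((∏ U, q U ^ c U) / q' : ℚ), ?_, δ, hδ, fun ι => ?_⟩
  · refine mul_ne_zero (Finset.prod_ne_zero_iff.mpr fun U _ => zpow_ne_zero _ (he U)) ?_
    have h1 : (∏ U, q U ^ c U) / q' ≠ 0 :=
      div_ne_zero (Finset.prod_ne_zero_iff.mpr fun U _ => zpow_ne_zero _ (hq0 U)) hq'0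
    exact_mod_cast h1
  · have h2 : ∀ U : Subgroup (K ≃ₐ[F] K), ∃ (f : ℂ → ℂ) (z z' : ℂ), z ≠ 0 ∧ z' ≠ 0 ∧ (c U ≠ 0 →
        Good M ι (fixedField U) m (e U) (q U * t ^ Module.finrank F (fixedField U)) f z z') := by
      intro U
      by_cases hU : c U = 0
      · exact ⟨0, 1, 1, one_ne_zero, one_ne_zero, fun h0 => absurd hU h0⟩
      · obtain ⟨f, z, z', h3⟩ := hg U hU ι
        refine ⟨f, z, z', ?_, h3.ne, fun _ => h3⟩
        rintro rfl
        have h4 := h3.eq
        rw [mul_zero, zero_div] at h4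
        have h5 : ι (e U) ≠ 0 := by
          rw [map_ne_zero]
          exact he U
        have h6 : (q U : ℂ) ≠ 0 := by exact_mod_cast hq0 U
        exact mul_ne_zero h5 (mul_ne_zero h6 (pow_ne_zero _ ht0)) h4.symm
    choose f z z' hz hz' hf using h2
    refine ⟨fun s => ∏ U, f U s ^ c U, ∏ U, z U ^ c U, ∏ U, z' U ^ c U, ⟨fun s => ?_,
      fun s hs => ?_⟩, ?_, ?_, ?_, ?_⟩
    · refine MeromorphicAt.fun_prod fun U _ => ?_
      by_cases hU : c U = 0
      · simp only [hU, zpow_zero]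
        exact MeromorphicAt.const 1 s
      · exact ((hf U hU).isL.1 s).fun_zpow _
    · have h3 : ∏ U, f U s ^ c U = Complex.exp (lg M ι k s) := by
        rw [← lg_rel hk hc2 M ι hs, Complex.exp_sum]
        refine Finset.prod_congr rfl fun U _ => ?_
        by_cases hU : c U = 0
        · rw [hU]
          simp
        · rw [((hf U hU).isL.2 s hs).unique (hasProd_euler M ι hs), ← Complex.exp_int_mul]
      change HasProd _ (∏ U, f U s ^ c U)
      rw [h3]
      exact hasProd_euler M ι hs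
    · refine tendsto_finsetProd _ fun U _ => ?_
      by_cases hU : c U = 0
      · simp only [hU, zpow_zero]
        exact tendsto_const_nhds
      · exact (hf U hU).lim.zpow₀ _ (Or.inl (hz U))
    · refine tendsto_finsetProd _ fun U _ => ?_
      by_cases hU : c U = 0
      · simp only [hU, zpow_zero]
        exact tendsto_const_nhds
      · exact (hf U hU).lim'.zpow₀ _ (Or.inl (hz' U))
    · exact Finset.prod_ne_zero_iff.mpr fun U _ => zpow_ne_zero _ (hz' U)
    · have h3 : (Linf M k m * ∏ U, z U ^ c U) / (Linf M k ((m : ℂ) + 1) * ∏ U, z' U ^ c U)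
          = ∏ U, ((Linf M (fixedField U) m * z U) /
            (Linf M (fixedField U) ((m : ℂ) + 1) * z' U)) ^ c U := by
        simp only [div_zpow, mul_zpow]
        rw [Finset.prod_div_distrib, Finset.prod_mul_distrib, Finset.prod_mul_distrib]
        change ((gam M m) ^ _ * _) / ((gam M ((m : ℂ) + 1)) ^ _ * _)
          = ((∏ U, ((gam M m) ^ _) ^ _) * _) / ((∏ U, ((gam M ((m : ℂ) + 1)) ^ _) ^ _) * _)
        rw [prod_zpow_nat _ hg1 _ _ hdeg, prod_zpow_nat _ hg2 _ _ hdeg]
      have h4 : ∀ U : Subgroup (K ≃ₐ[F] K), ((Linf M (fixedField U) m * z U) /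
            (Linf M (fixedField U) ((m : ℂ) + 1) * z' U)) ^ c U
          = (ι (e U) * (q U * t ^ Module.finrank F (fixedField U))) ^ c U := by
        intro U
        by_cases hU : c U = 0
        · rw [hU, zpow_zero, zpow_zero]
        · rw [(hf U hU).eq]
      rw [h3, Finset.prod_congr rfl (fun U _ => h4 U), hq']
      simp only [mul_zpow]
      rw [Finset.prod_mul_distrib, Finset.prod_mul_distrib, prod_zpow_nat _ ht0 _ _ hdeg,
        map_mul, map_prod, map_ratCast]
      simp only [map_zpow₀]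
      have h5 : (q' : ℂ) ≠ 0 := by exact_mod_cast hq'0
      push_cast
      field_simp

theorem main {m : ℤ} (hm : IsCritical M m) (hm' : IsCritical M (m + 1))
    (h : ∀ U : Subgroup (K ≃ₐ[F] K), Hyperelementary U → RatioEquality M (fixedField U) m) :
    (∀ k : IntermediateField F K, RatioEquality M k m) ∧ RatioEquality M F m := by
  constructor
  · intro k
    have hfin : FiniteDimensional F K := Module.Finite.of_restrictScalars_finite ℚ F K
    have h1 := assemble M (mat_fixed k.fixingSubgroup) hm hm' h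
    rwa [IsGalois.fixedField_fixingSubgroup k] at h1
  · exact assemble M (mat_top (K := K)) hm hm' h

end Pool.Agent.K9h86.RT
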